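import Pool.Agent.H473.SM.Final
import Pool.Agent.H473.SM.Count

set_option autoImplicit false

/-!
# Short sums of cubic characters with smooth conductors

`C_n` asks for `|S_χ(M, N)| ≤ c Q ^ ((1 - δ) / n + ε)` for all cubic characters of modulus `q ≤ Q`, all
positions `M` and all `N ≤ Q ^ (1 / n)`. Write `X = Q ^ (1 / n)`. The bound is proved here, for every
`n ≥ 1`, for all cubic characters (of arbitrary modulus `q ≤ Q`) such that all primes which divide the
conductor are at most `X ^ (1 - η)`, with the exception of one prime, which can be as large as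
`X ^ (2 - η)`.

Proof. The `q`-analogue of van der Corput's method (Heath-Brown, Graham and Ringrose). The prime
factors of the conductor but those of a factor `r` are put together in `O(n / η)` factors of size at most
`X ^ (1 - η / 2)`, which are removed one after the other by means of shifts `l m`, `l ≤ X ^ (η / 4)`.
Then the sum over the product of `2 ^ R` shifts of a character modulo `r` remains, for which Weil's bound
(proved in the library, `H435R3.Weil`) is used. If there is a large prime `P` then `r = P`, and the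
sums of length `X`, which can be smaller than `√P` times a power of `X` only by a bounded power, are
estimated by means of the second moment over all translations and by the slow variation of the sums.

A positive proportion of the primitive cubic characters have conductors with all primes at most `X ^ (1/2)`
(induction on the ratio of the logarithms, from Mertens' theorem for the primes `1 mod 3` and the count of
all primitive cubic characters in the library), so the bound holds, for all positions `M`, for a positive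
proportion of all primitive cubic characters.
-/

namespace Pool.Agent.H473.SM

open Finset

/-- the bound for primitive characters -/
theorem prim (n : ℕ) (hn : 1 ≤ n) (η : ℝ) (hη : 0 < η) (hη2 : η ≤ 1 / 2) :
    ∃ δ C : ℝ, 0 < δ ∧ δ ≤ 1 ∧ 1 ≤ C ∧ ∀ X : ℝ, 1 ≤ X → ∀ (q : ℕ) (χ : DirichletCharacter ℂ q) (d s p₀ : ℕ),
    q = d * s → (q : ℝ) ≤ X ^ (n : ℝ) → χ.IsPrimitive → χ ≠ 1 → 0 < d → (d : ℝ) ≤ X ^ (1 - η) →
    Squarefree s → d.Coprime s → (p₀ : ℝ) ≤ X ^ (2 - η) →
    (∀ p : ℕ, p.Prime → p ∣ s → p ≠ p₀ → (p : ℝ) ≤ X ^ (1 - η)) →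
    ∀ a b : ℤ, ((b - a : ℤ) : ℝ) ≤ X → ‖∑ m ∈ Ioc a b, χ (m : ZMod q)‖ ≤ C * X ^ (1 - δ) := by
  have hn1 : (1 : ℝ) ≤ n := by exact_mod_cast hn
  set k : ℕ := ⌈2 * n / η⌉₊ with hk
  have hkb : (n : ℝ) ≤ η / 2 * (k + 1) := by
    have h1 : 2 * n / η ≤ k := Nat.le_ceil _
    rw [div_le_iff₀ hη] at h1
    nlinarith
  obtain ⟨CB, hCB1, hB⟩ := primB n η hη hη2 k hkb
  obtain ⟨CA', hCA1, hA⟩ := primA n η hη hη2 k hkb
  have hK1 : (1 : ℝ) ≤ 2 ^ (k + 2) := one_le_pow₀ (by norm_num)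
  have hK1' : (1 : ℝ) ≤ ((2 ^ (k + 2) : ℕ) : ℝ) := by exact_mod_cast Nat.one_le_two_pow
  set δ : ℝ := (η * (η / (4 * 2 ^ (k + 2))) / 4) / (2 ^ (k + 2) : ℕ) with hδ
  have hδ0 : 0 < δ := by positivity
  have hθ : η / (4 * 2 ^ (k + 2)) ≤ η / 4 := by
    rw [div_mul_eq_div_div]
    exact div_le_self (by positivity) hK1
  have hδ1 : δ ≤ (η / 6) / (2 ^ (k + 2) : ℕ) := by
    rw [hδ]
    apply div_le_div_of_nonneg_right _ (by positivity)
    have : 0 ≤ η / (4 * 2 ^ (k + 2)) := by positivity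
    nlinarith
  have hδ2 : δ ≤ 1 / 4 := by
    refine hδ1.trans ?_
    refine (div_le_self (by positivity) hK1').trans ?_
    linarith
  refine ⟨δ, CB + CA' + 8, hδ0, by linarith, by linarith, ?_⟩
  intro X hX q χ d s p₀ hq hqX hχ hχ1 hd hdX hs hds hp₀ hps a b hab
  have hX0 : 0 < X := by linarith
  have hexp : ∀ u v : ℝ, u ≤ v → X ^ u ≤ X ^ v := fun u v h => Real.rpow_le_rpow_of_exponent_le hX h
  have hpos : 0 < X ^ (1 - δ) := by positivity
  have hfin : ∀ (C' u y : ℝ), 0 ≤ C' → C' ≤ CB + CA' + 8 → u ≤ 1 - δ → y ≤ C' * X ^ u →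
      y ≤ (CB + CA' + 8) * X ^ (1 - δ) := by
    intro C' u y h0 h1 h2 h3
    calc y ≤ C' * X ^ u := h3
      _ ≤ C' * X ^ (1 - δ) := mul_le_mul_of_nonneg_left (hexp _ _ h2) h0
      _ ≤ _ := mul_le_mul_of_nonneg_right h1 hpos.le
  have hs0 : 0 < s := hs.ne_zero.bot_lt
  have hsq : (s : ℝ) ≤ q := by
    rw [hq]
    exact_mod_cast Nat.le_mul_of_pos_left s hd
  by_cases hP : ∃ P : ℕ, P.Prime ∧ P ∣ s ∧ X ^ (1 - η) < P
  · obtain ⟨P, hPp, hPs, hPX⟩ := hP
    have hPp₀ : P = p₀ := by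
      by_contra h
      have := hps P hPp hPs h
      linarith
    obtain ⟨s₁, hs₁⟩ := hPs
    have hqe : q = d * s₁ * P := by rw [hq, hs₁]; ring
    have hcop1 : P.Coprime s₁ := by
      rw [hs₁, Nat.squarefree_mul_iff] at hs
      exact hs.1
    have hcop2 : P.Coprime d := by
      have : d.Coprime P := Nat.Coprime.coprime_dvd_right ⟨s₁, hs₁⟩ hds
      exact this.symm
    have hs₁sq : Squarefree s₁ := by
      rw [hs₁] at hs
      exact hs.of_mul_right
    have hds₁ : d.Coprime s₁ := Nat.Coprime.coprime_dvd_right ⟨P, by rw [hs₁]; ring⟩ hds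
    have hs₁X : (s₁ : ℝ) ≤ X ^ (n : ℝ) := by
      refine le_trans ?_ (hsq.trans hqX)
      rw [hs₁]
      exact_mod_cast Nat.le_mul_of_pos_left s₁ hPp.pos
    have hps₁ : ∀ p : ℕ, p.Prime → p ∣ s₁ → (p : ℝ) ≤ X ^ (1 - η) := by
      intro p hp hpd
      apply hps p hp (hpd.trans ⟨P, by rw [hs₁]; ring⟩)
      rw [← hPp₀]
      intro h
      rw [h] at hpd
      have := Nat.Coprime.eq_one_of_dvd hcop1 hpd
      exact hPp.one_lt.ne' this
    clear hq hsq
    subst hqe
    have h1 := hB X hX d s₁ P hPp hd hdX hs₁sq hds₁ (Nat.Coprime.mul_right hcop2 hcop1) hs₁X hps₁ hPX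
      (by rw [hPp₀]; exact hp₀) χ hχ a b hab
    exact hfin CB _ _ (by linarith) (by linarith) (by linarith) h1
  · push Not at hP
    rcases le_or_gt (s : ℝ) (X ^ (η / 2)) with hsm | hsl
    · -- small conductor
      have hqle : (q : ℝ) ≤ X := by
        rw [hq]
        push_cast
        calc (d : ℝ) * s ≤ X ^ (1 - η) * X ^ (η / 2) := by gcongr
          _ = X ^ (1 - η / 2) := by
              rw [← Real.rpow_add hX0]
              congr 1
              ring
          _ ≤ X ^ (1 : ℝ) := hexp _ _ (by linarith)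
          _ = X := Real.rpow_one X
      have hq0 : q ≠ 0 := by
        rw [hq]
        exact Nat.mul_ne_zero hd.ne' hs0.ne'
      have hq1 : q ≠ 1 := by
        intro h
        subst h
        exact hχ1 (DirichletCharacter.level_one χ)
      have h8 : ‖∑ m ∈ Ioc a b, χ (m : ZMod q)‖ ≤ 8 * X ^ (3 / 4 : ℝ) := by
        rcases le_or_gt a b with hle | hgt
        · obtain ⟨T, hT⟩ : ∃ T : ℕ, b = a + T := ⟨(b - a).toNat, by omega⟩
          have h1 := Pool.Agent.R524.Cubic.pv' (by omega : 2 ≤ q) χ hχ a T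
          unfold Pool.Agent.R524.Cubic.S at h1
          rw [hT]
          refine h1.trans ?_
          have : (q : ℝ) ^ (3 / 4 : ℝ) ≤ X ^ (3 / 4 : ℝ) :=
            Real.rpow_le_rpow (Nat.cast_nonneg _) hqle (by norm_num)
          linarith
        · rw [Finset.Ioc_eq_empty (by omega), sum_empty, norm_zero]
          positivity
      exact hfin 8 _ _ (by norm_num) (by linarith) (by linarith) h8
    · have hXge : ∀ u : ℝ, 0 ≤ u → 1 ≤ X ^ u := fun u h => Real.one_le_rpow hX h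
      obtain ⟨r, hrs, hrX, hrX2⟩ := exists_dvd s hs.ne_zero (X ^ (1 - η)) (X ^ (η / 2)) (by positivity)
        (hXge _ (by linarith)) hP hsl
      have hYY : X ^ (1 - η) * X ^ (η / 2) = X ^ (1 - η / 2) := by
        rw [← Real.rpow_add hX0]
        congr 1
        ring
      rw [hYY] at hrX2
      obtain ⟨s₁, hs₁⟩ := hrs
      have hqe : q = d * s₁ * r := by rw [hq, hs₁]; ring
      have hr0 : 0 < r := by
        rcases Nat.eq_zero_or_pos r with h | h
        · rw [h, zero_mul] at hs₁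
          omega
        · exact h
      have hsf := hs
      rw [hs₁, Nat.squarefree_mul_iff] at hsf
      obtain ⟨hcop1, hrsq, hs₁sq⟩ := hsf
      have hcop2 : r.Coprime d := (Nat.Coprime.coprime_dvd_right ⟨s₁, hs₁⟩ hds).symm
      have hds₁ : d.Coprime s₁ := Nat.Coprime.coprime_dvd_right ⟨r, by rw [hs₁]; ring⟩ hds
      have hs₁X : (s₁ : ℝ) ≤ X ^ (n : ℝ) := by
        refine le_trans ?_ (hsq.trans hqX)
        rw [hs₁]
        exact_mod_cast Nat.le_mul_of_pos_left s₁ hr0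
      have hps₁ : ∀ p : ℕ, p.Prime → p ∣ s₁ → (p : ℝ) ≤ X ^ (1 - η) := fun p hp hpd =>
        hP p hp (hpd.trans ⟨r, by rw [hs₁]; ring⟩)
      clear hq hsq
      subst hqe
      have h1 := hA X hX d s₁ r hd hdX hs₁sq hds₁ hrsq (Nat.Coprime.mul_right hcop2 hcop1) hs₁X hps₁ hrX
        hrX2 χ hχ a b hab
      exact hfin CA' _ _ (by linarith) (by linarith) (le_refl _) h1

/-- the conductors of cubic characters -/
theorem good_split (f : ℕ) (hf : f ≠ 0) (h : Pool.Agent.R524.Cubic.Good f) :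
    ∃ d s : ℕ, f = d * s ∧ 0 < d ∧ d ≤ 9 ∧ d.Coprime s ∧ Squarefree s := by
  by_cases h3 : 3 ∣ f
  · rcases h 3 Nat.prime_three h3 with h1 | ⟨_, h9, h27⟩
    · omega
    · obtain ⟨s, hs⟩ := h9
      have h3s : ¬ 3 ∣ s := by
        rintro ⟨u, hu⟩
        exact h27 ⟨u, by rw [hs, hu]; ring⟩
      refine ⟨9, s, by rw [hs]; norm_num, by norm_num, le_refl _, ?_, ?_⟩
      · have : Nat.Coprime (3 ^ 2) s := Nat.Coprime.pow_left 2 ((Nat.Prime.coprime_iff_not_dvd Nat.prime_three).2 h3s)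
        simpa using this
      · rw [Nat.squarefree_iff_prime_squarefree]
        rintro p hp hpp
        have hps : p ∣ s := (Dvd.intro p rfl).trans hpp
        rcases h p hp (hps.trans ⟨3 ^ 2, by rw [hs]; ring⟩) with h1 | h1
        · apply h1.2
          rw [pow_two]
          exact hpp.trans ⟨3 ^ 2, by rw [hs]; ring⟩
        · rw [h1.1] at hps
          exact h3s hps
  · refine ⟨1, f, by simp, one_pos, by norm_num, Nat.coprime_one_left _, ?_⟩
    rw [Nat.squarefree_iff_prime_squarefree]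
    rintro p hp hpp
    have hps : p ∣ f := (Dvd.intro p rfl).trans hpp
    rcases h p hp hps with h1 | h1
    · apply h1.2
      rw [pow_two]
      exact hpp
    · rw [h1.1] at hps
      exact h3 hps

end Pool.Agent.H473.SM

namespace Pool.Agent.Results.MP_081200_nt.SmoothConductors

open Finset Pool.Agent.H473.SM

/-- **Theorem.** Let `n ≥ 1` and `η > 0`. There are `δ > 0` and `C` such that for all real `Q ≥ 3`, all
`q ≤ Q` and all non-principal Dirichlet characters `χ` modulo `q` with the properties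

* all primes which divide the conductor of `χ`, but possibly one prime `p₀ ≤ Q ^ ((2 - η) / n)`, are at
  most `Q ^ ((1 - η) / n)`, and
* `χ` is cubic; or, more generally, the conductor of `χ` is the product of a squarefree number `s` and
  of a number `d ≤ Q ^ ((1 - η) / n)` prime to `s`,

the bound `|∑_{M < a ≤ M + N} χ(a)| ≤ C Q ^ ((1 - δ) / n)` holds for all integers `M` and all
`N ≤ Q ^ (1 / n)`. -/
theorem pointwise (n : ℕ) (hn : 1 ≤ n) (η : ℝ) (hη : 0 < η) :
    ∃ δ C : ℝ, 0 < δ ∧ ∀ Q : ℝ, 3 ≤ Q → ∀ q : ℕ, 1 ≤ q → (q : ℝ) ≤ Q →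
      ∀ χ : DirichletCharacter ℂ q, χ ≠ 1 →
      (∃ p₀ : ℕ, (p₀ : ℝ) ≤ Q ^ ((2 - η) / n) ∧
        ∀ p : ℕ, p.Prime → p ∣ χ.conductor → p ≠ p₀ → (p : ℝ) ≤ Q ^ ((1 - η) / n)) →
      (χ ^ 3 = 1 ∨ ∃ d s : ℕ, χ.conductor = d * s ∧ d.Coprime s ∧ Squarefree s ∧
        (d : ℝ) ≤ Q ^ ((1 - η) / n)) →
      ∀ (M : ℤ) (N : ℕ), (N : ℝ) ≤ Q ^ (1 / (n : ℝ)) →
        ‖∑ a ∈ Ioc M (M + (N : ℤ)), χ (a : ZMod q)‖ ≤ C * Q ^ ((1 - δ) / n) := by
  have hn1 : (1 : ℝ) ≤ n := by exact_mod_cast hn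
  have hn0 : (0 : ℝ) < n := by linarith
  set η₁ : ℝ := min η (1 / 2) with hη₁
  have hη₁0 : 0 < η₁ := lt_min hη (by norm_num)
  have hη₁2 : η₁ ≤ 1 / 2 := min_le_right _ _
  have hη₁η : η₁ ≤ η := min_le_left _ _
  obtain ⟨δ, C, hδ, hδ1, hC1, hprim⟩ := prim n hn η₁ hη₁0 hη₁2
  obtain ⟨D, hD, hdiv⟩ := H353.divisor_bound_real (δ / (2 * n)) (by positivity)
  refine ⟨δ / 2, D * (C + 81), by positivity, ?_⟩
  intro Q hQ q hq hqQ χ hχ1 hp₀ hcase M N hN
  have hQ1 : 1 ≤ Q := by linarith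
  have hQ0 : 0 < Q := by linarith
  have : NeZero q := ⟨by omega⟩
  set X : ℝ := Q ^ (1 / (n : ℝ)) with hX
  have hX1 : 1 ≤ X := Real.one_le_rpow hQ1 (by positivity)
  have hX0 : 0 < X := by linarith
  have hXp : ∀ u : ℝ, X ^ u = Q ^ (u / n) := by
    intro u
    rw [hX, ← Real.rpow_mul hQ0.le]
    congr 1
    ring
  have hXn : X ^ (n : ℝ) = Q := by
    rw [hXp, div_self hn0.ne', Real.rpow_one]
  have hexp : ∀ u v : ℝ, u ≤ v → X ^ u ≤ X ^ v := fun u v h => Real.rpow_le_rpow_of_exponent_le hX1 h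
  -- the primitive character
  have hf0 : χ.conductor ≠ 0 := χ.conductor_ne_zero
  have hfq : χ.conductor ≤ q := Nat.le_of_dvd (by omega) χ.conductor_dvd_level
  have hprm := χ.primitiveCharacter_isPrimitive
  have hpne : χ.primitiveCharacter ≠ 1 := by
    intro h
    have hc := DirichletCharacter.changeLevel_primitiveCharacter χ
    rw [h, map_one] at hc
    exact hχ1 hc.symm
  have hfX : ((χ.conductor : ℕ) : ℝ) ≤ X ^ (n : ℝ) := by
    rw [hXn]
    refine le_trans ?_ hqQ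
    exact_mod_cast hfq
  obtain ⟨p₀, hp₀1, hp₀2⟩ := hp₀
  have hp₀1' : (p₀ : ℝ) ≤ X ^ (2 - η₁) := by
    refine hp₀1.trans ?_
    rw [← hXp]
    exact hexp _ _ (by linarith)
  have hle1 : Q ^ ((1 - η) / n) ≤ X ^ (1 - η₁) := by
    rw [← hXp]
    exact hexp _ _ (by linarith)
  have key : ∀ d s : ℕ, χ.conductor = d * s → 0 < d → d.Coprime s → Squarefree s →
      (d : ℝ) ≤ X ^ (1 - η₁) → ∀ M : ℤ, ∀ N' : ℕ, N' ≤ N →
        ‖Pool.Agent.R524.Cubic.S χ.primitiveCharacter M N'‖ ≤ (C + 81) * X ^ (1 - δ) := by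
    intro d s hds hd0 hcop hsq hdX M N' hN'
    have h1 := hprim X hX1 χ.conductor χ.primitiveCharacter d s p₀ hds hfX hprm hpne hd0 hdX hsq hcop
      hp₀1' (fun p hp hps hpp => (hp₀2 p hp (by rw [hds]; exact Dvd.dvd.mul_left hps d) hpp).trans hle1)
      M (M + (N' : ℤ)) (by
        have : (M + (N' : ℤ) - M : ℤ) = (N' : ℤ) := by ring
        rw [this, Int.cast_natCast]
        refine le_trans ?_ hN
        exact_mod_cast hN')
    unfold Pool.Agent.R524.Cubic.S
    refine h1.trans ?_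
    have : 0 < X ^ (1 - δ) := by positivity
    nlinarith
  have hmain : ∀ M : ℤ, ∀ N' : ℕ, N' ≤ N →
      ‖Pool.Agent.R524.Cubic.S χ.primitiveCharacter M N'‖ ≤ (C + 81) * X ^ (1 - δ) := by
    rcases hcase with h3 | ⟨d, s, hds, hcop, hsq, hdQ⟩
    · have hc3 := (Pool.Agent.R524.Cubic.primitive_cubic hq χ h3 hχ1).1
      have hgood := Pool.Agent.R524.Cubic.good_of_primitive hf0 χ.primitiveCharacter hc3 hprm
      obtain ⟨d, s, hds, hd0, hd9, hcop, hsq⟩ := good_split _ hf0 hgood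
      rcases le_or_gt X 81 with hXs | hXl
      · intro M N' hN'
        have h1 := Pool.Agent.R524.Cubic.norm_S_le_N χ.primitiveCharacter M N'
        have h2 : (N' : ℝ) ≤ N := by exact_mod_cast hN'
        have h3 : 1 ≤ X ^ (1 - δ) := Real.one_le_rpow hX1 (by linarith)
        have h4 : (N : ℝ) ≤ 81 := hN.trans hXs
        nlinarith
      · apply key d s hds hd0 hcop hsq
        have h9 : (9 : ℝ) ≤ X ^ (1 / 2 : ℝ) := by
          rw [← Real.sqrt_eq_rpow]
          apply Real.le_sqrt_of_sq_le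
          linarith
        have hd9' : (d : ℝ) ≤ 9 := by exact_mod_cast hd9
        exact (hd9'.trans h9).trans (hexp _ _ (by linarith))
    · have hd0 : 0 < d := by
        rcases Nat.eq_zero_or_pos d with h | h
        · rw [h, zero_mul] at hds
          exact absurd hds hf0
        · exact h
      exact key d s hds hd0 hcop hsq (hdQ.trans hle1)
  have himp := Pool.Agent.R524.Cubic.imprimitive hq χ N ((C + 81) * X ^ (1 - δ)) hmain M
  unfold Pool.Agent.R524.Cubic.S at himp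
  refine himp.trans ?_
  have hτ : (q.divisors.card : ℝ) ≤ D * X ^ (δ / 2) := by
    refine (hdiv q (by omega)).trans ?_
    apply mul_le_mul_of_nonneg_left _ hD.le
    rw [hXp]
    have : δ / 2 / (n : ℝ) = δ / (2 * n) := by rw [div_div]
    rw [this]
    exact Real.rpow_le_rpow (Nat.cast_nonneg _) hqQ (by positivity)
  calc (q.divisors.card : ℝ) * ((C + 81) * X ^ (1 - δ))
      ≤ (D * X ^ (δ / 2)) * ((C + 81) * X ^ (1 - δ)) := by gcongr
    _ = D * (C + 81) * (X ^ (δ / 2) * X ^ (1 - δ)) := by ring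
    _ = D * (C + 81) * X ^ (1 - δ / 2) := by
        rw [← Real.rpow_add hX0]
        congr 2
        ring
    _ = _ := by rw [hXp]

/-- the primitive Dirichlet characters of order three with conductor at most `Q` -/
def Cubic (Q : ℝ) : Set (Σ m : ℕ, DirichletCharacter ℂ m) :=
  {χ | 1 ≤ χ.1 ∧ (χ.1 : ℝ) ≤ Q ∧ χ.2.IsPrimitive ∧ χ.2 ^ 3 = 1 ∧ χ.2 ≠ 1}

/-- the bound `|∑_{M < a ≤ M + N} χ(a)| ≤ C Q ^ ((1 - δ) / n)` for all integers `M` and all
`N ≤ Q ^ (1 / n)` -/
def Bound (n : ℕ) (δ C Q : ℝ) {q : ℕ} (χ : DirichletCharacter ℂ q) : Prop :=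
  ∀ (M : ℤ) (N : ℕ), (N : ℝ) ≤ Q ^ (1 / (n : ℝ)) →
    ‖∑ a ∈ Ioc M (M + (N : ℤ)), χ (a : ZMod q)‖ ≤ C * Q ^ ((1 - δ) / n)

theorem cubic_fin (Q : ℝ) : (Cubic Q).Finite :=
  (fam_fin Q Q).subset fun χ ⟨h1, h2, h3, h4, _⟩ => ⟨h1, h2, h3, h4, fun p _ hd => by
    have : (p : ℝ) ≤ χ.1 := by exact_mod_cast Nat.le_of_dvd (by omega) hd
    linarith⟩

theorem cubic_card (Q : ℝ) (hQ : 1 ≤ Q) : (((Cubic Q).ncard : ℕ) : ℝ) ≤ 112 * Q := by
  have hsub : Cubic Q ⊆ fam Q Q := fun χ ⟨h1, h2, h3, h4, _⟩ => ⟨h1, h2, h3, h4, fun p _ hd => by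
    have : (p : ℝ) ≤ χ.1 := by exact_mod_cast Nat.le_of_dvd (by omega) hd
    linarith⟩
  have h1 := Set.ncard_le_ncard hsub (fam_fin Q Q)
  rw [← F_card] at h1
  have h2 := F_card_le Q Q hQ
  have h3 : (((Cubic Q).ncard : ℕ) : ℝ) ≤ ((F Q Q).card : ℝ) := by exact_mod_cast h1
  linarith

/-- **Theorem.** Let `n ≥ 1`.

1. Let `η > 0`. There are `δ > 0` and `C` such that for all real `Q ≥ 3`, all `q ≤ Q` and all
   non-principal Dirichlet characters `χ` modulo `q` with the properties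
   * all primes which divide the conductor of `χ`, but possibly one prime `p₀ ≤ Q ^ ((2 - η) / n)`, are
     at most `Q ^ ((1 - η) / n)`, and
   * `χ` is cubic; or, more generally, the conductor of `χ` is the product of a squarefree number `s`
     and of a number `d ≤ Q ^ ((1 - η) / n)` prime to `s`,

   the bound `|∑_{M < a ≤ M + N} χ(a)| ≤ C Q ^ ((1 - δ) / n)` of `C_n` holds for all integers `M` and
   all `N ≤ Q ^ (1 / n)`.
2. There are `δ, c > 0` and `C`, `Q₀` such that for all real `Q ≥ Q₀` this bound holds, for all `M` and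
   all `N ≤ Q ^ (1 / n)`, for at least `c Q` of the at most `112 Q` primitive Dirichlet characters of
   order three with conductor at most `Q`. -/
theorem result (n : ℕ) (hn : 1 ≤ n) :
    (∀ η : ℝ, 0 < η → ∃ δ C : ℝ, 0 < δ ∧ ∀ Q : ℝ, 3 ≤ Q → ∀ q : ℕ, 1 ≤ q → (q : ℝ) ≤ Q →
      ∀ χ : DirichletCharacter ℂ q, χ ≠ 1 →
      (∃ p₀ : ℕ, (p₀ : ℝ) ≤ Q ^ ((2 - η) / n) ∧
        ∀ p : ℕ, p.Prime → p ∣ χ.conductor → p ≠ p₀ → (p : ℝ) ≤ Q ^ ((1 - η) / n)) →
      (χ ^ 3 = 1 ∨ ∃ d s : ℕ, χ.conductor = d * s ∧ d.Coprime s ∧ Squarefree s ∧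
        (d : ℝ) ≤ Q ^ ((1 - η) / n)) →
      Bound n δ C Q χ) ∧
    (∃ δ c C Q₀ : ℝ, 0 < δ ∧ 0 < c ∧ ∀ Q : ℝ, Q₀ ≤ Q →
      (Cubic Q).Finite ∧ (((Cubic Q).ncard : ℕ) : ℝ) ≤ 112 * Q ∧
      c * Q ≤ (({χ ∈ Cubic Q | Bound n δ C Q χ.2}.ncard : ℕ) : ℝ)) := by
  refine ⟨fun η hη => pointwise n hn η hη, ?_⟩
  obtain ⟨δ, C, hδ, hb⟩ := pointwise n hn (1 / 2) (by norm_num)
  obtain ⟨c, hc, x₀, hx₀, hlow⟩ := smooth_lower (4 * n)
  have hn1 : (1 : ℝ) ≤ n := by exact_mod_cast hn
  have hn0 : (0 : ℝ) < n := by linarith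
  refine ⟨δ, c / 2, C, max (max 3 x₀) (2 / c), hδ, by positivity, fun Q hQ => ?_⟩
  have hQ3 : 3 ≤ Q := ((le_max_left _ _).trans (le_max_left _ _)).trans hQ
  have hQx : x₀ ≤ Q := ((le_max_right _ _).trans (le_max_left _ _)).trans hQ
  have hQc : 2 / c ≤ Q := (le_max_right _ _).trans hQ
  have hQ1 : 1 ≤ Q := by linarith
  have hQ0 : 0 < Q := by linarith
  refine ⟨cubic_fin Q, cubic_card Q hQ1, ?_⟩
  set y : ℝ := Q ^ ((1 - 1 / 2) / (n : ℝ)) with hy
  have hy1 : 1 ≤ y := Real.one_le_rpow hQ1 (div_nonneg (by norm_num) hn0.le)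
  have h1 := hlow Q hQx y hy1 (by
    rw [hy, ← Real.rpow_mul hQ0.le]
    calc Q = Q ^ (1 : ℝ) := (Real.rpow_one Q).symm
      _ ≤ _ := by
        apply Real.rpow_le_rpow_of_exponent_le hQ1
        push_cast
        have h2 : (1 - 1 / 2) / (n : ℝ) * (1 + 4 * n / 2) = 1 + 1 / (2 * n) := by
          field_simp
          ring
        rw [h2]
        have : 0 ≤ 1 / (2 * (n : ℝ)) := by positivity
        linarith)
  -- the nontrivial members have the bound
  have hsub : fam Q y ⊆ {χ ∈ Cubic Q | Bound n δ C Q χ.2} ∪ {⟨1, 1⟩} := by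
    rintro ⟨m, χ⟩ ⟨a1, a2, a3, a4, a5⟩
    simp only at a1 a2 a3 a4 a5
    by_cases hχ : χ = 1
    · right
      subst hχ
      have hm : m = 1 := by
        have hm0 : NeZero m := ⟨by omega⟩
        have h1 : DirichletCharacter.conductor (1 : DirichletCharacter ℂ m) = m := a3
        rw [DirichletCharacter.conductor_one] at h1
        exact h1.symm
      subst hm
      rfl
    · left
      refine ⟨⟨a1, a2, a3, a4, hχ⟩, ?_⟩
      have hcond : χ.conductor = m := a3
      refine hb Q hQ3 m a1 a2 χ hχ ⟨0, by simpa using Real.rpow_nonneg hQ0.le _, ?_⟩ (Or.inl a4)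
      intro p hp hpd _
      rw [hcond] at hpd
      exact a5 p hp hpd
  have hfin : ({χ ∈ Cubic Q | Bound n δ C Q χ.2} ∪ {⟨1, 1⟩} : Set (Σ m : ℕ, DirichletCharacter ℂ m)).Finite :=
    ((cubic_fin Q).subset fun _ h => h.1).union (Set.finite_singleton _)
  have h2 := (Set.ncard_le_ncard hsub hfin).trans (Set.ncard_union_le _ _)
  rw [Set.ncard_singleton, ← F_card] at h2
  have h3 : ((F Q y).card : ℝ) ≤ (({χ ∈ Cubic Q | Bound n δ C Q χ.2}.ncard : ℕ) : ℝ) + 1 := by
    exact_mod_cast h2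
  have h4 : 2 ≤ c * Q := by
    rw [div_le_iff₀ hc] at hQc
    linarith
  linarith

end Pool.Agent.Results.MP_081200_nt.SmoothConductors
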